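import Pool.Agent.W744.GL.Stm
import Pool.Agent.Helper503.Gp.Char1
import Pool.Agent.Helper503.Gp.Char2
import Pool.Agent.Helper503.Gp.Triv
import Pool.Agent.Helper503.Gp.Harn

/-!
# GL-PART: the Gleason part of `lam U ζ₀`
-/

set_option autoImplicit false

open Metric Set Filter Topology Complex
open scoped ComplexConjugate

namespace Pool.Agent.W366.GL.PART

open Pool.Agent.Helper503.Gp (HI IsChar Gl bfac cay PH BlaOn BF mu char_le gl_rho char_sp
  tv_gl_of_rho tv_gl_symm PH_pos PH_le_one)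
open Pool.Agent.W744.GL

theorem im_add (a : ℤ) (ζ : ℂ) : ((a : ℂ) + ζ).im = ζ.im := by simp

theorem re_add (a : ℤ) (ζ : ℂ) : ((a : ℂ) + ζ).re = a + ζ.re := by simp

theorem lam_char (h1 : S_ULCH) (U : Ultrafilter ℤ) {ζ : ℂ} (h : 0 < ζ.im) : IsChar (lam U ζ) :=
  (h1.2 ℤ U (fun a : ℤ => pt ((a : ℂ) + ζ)) (fun a => h1.1 _ (by rw [im_add]; exact h))).1

theorem lam_lim (h1 : S_ULCH) (U : Ultrafilter ℤ) {ζ : ℂ} (h : 0 < ζ.im) (f : ℂ → ℂ) :
    Tendsto (fun a : ℤ => pt ((a : ℂ) + ζ) f) U (𝓝 (lam U ζ f)) :=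
  (h1.2 ℤ U (fun a : ℤ => pt ((a : ℂ) + ζ)) (fun a => h1.1 _ (by rw [im_add]; exact h))).2 f

theorem pt_eq {z : ℂ} {f : ℂ → ℂ} (hf : f ∈ HI) : pt z f = f (cay z) := by
  unfold pt
  rw [if_pos hf]

theorem PH_inv (a : ℤ) (z w : ℂ) : PH ((a : ℂ) + z) ((a : ℂ) + w) = PH z w := by
  unfold PH
  rw [im_add, im_add, re_add, re_add]
  congr 2
  ring

theorem lam_g0 (h1 : S_ULCH) (h3 : S_G0) (U : Ultrafilter ℤ) {ζ : ℂ} (h : 0 < ζ.im) :
    lam U ζ g0 = Complex.exp (2 * Real.pi * I * ζ) := by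
  have hl := lam_lim h1 U h g0
  have he : (fun a : ℤ => pt ((a : ℂ) + ζ) g0) = fun _ => Complex.exp (2 * Real.pi * I * ζ) := by
    funext a
    rw [pt_eq h3.1, h3.2.2.2 _ (by rw [im_add]; exact h)]
    have e : 2 * (Real.pi : ℂ) * I * ((a : ℂ) + ζ) =
        2 * Real.pi * I * ζ + a * (2 * Real.pi * I) := by ring
    rw [e, Complex.exp_add, Complex.exp_int_mul_two_pi_mul_I, mul_one]
  rw [he] at hl
  exact tendsto_nhds_unique hl tendsto_const_nhds

theorem norm_exp2 (ζ : ℂ) : ‖Complex.exp (2 * Real.pi * I * ζ)‖ = Real.exp (-(2 * Real.pi * ζ.im)) := by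
  rw [Complex.norm_exp]
  congr 1
  simp

theorem lam_sh (h1 : S_ULCH) (U : Ultrafilter ℤ) (k : ℤ) {ζ : ℂ} (h : 0 < ζ.im) :
    lam (sh U k) ζ = lam U (ζ + k) := by
  funext f
  have h2 := lam_lim h1 (sh U k) h f
  have hk : 0 < (ζ + (k : ℂ)).im := by simpa using h
  have h3 := lam_lim h1 U hk f
  unfold sh at h2
  rw [Ultrafilter.coe_map, tendsto_map'_iff] at h2
  have he : (fun a : ℤ => pt ((a : ℂ) + ζ) f) ∘ (fun a : ℤ => a + k) =
      fun a : ℤ => pt ((a : ℂ) + (ζ + k)) f := by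
    funext a
    have e : ((a + k : ℤ) : ℂ) + ζ = (a : ℂ) + (ζ + k) := by
      push_cast
      ring
    simp only [Function.comp_apply]
    rw [e]
  rw [he] at h2
  exact tendsto_nhds_unique h2 h3

/-- the roots of `g0` -/
noncomputable def hn (n : ℕ) (z : ℂ) : ℂ := Complex.exp (-(2 * Real.pi / n) * ((1 + z) / (1 - z)))

theorem hn_pow {n : ℕ} (hn0 : n ≠ 0) (z : ℂ) : hn n z ^ n = g0 z := by
  unfold hn g0
  rw [← Complex.exp_nat_mul]
  congr 1
  have : (n : ℂ) ≠ 0 := by exact_mod_cast hn0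
  field_simp

theorem hn_le (h3 : S_G0) {n : ℕ} (hn0 : n ≠ 0) {z : ℂ} (hz : z ∈ ball (0 : ℂ) 1) :
    ‖hn n z‖ ≤ 1 := by
  have h := h3.2.1 z hz
  rw [← hn_pow hn0 z, norm_pow] at h
  exact (pow_le_one_iff_of_nonneg (norm_nonneg _) hn0).1 h

theorem hn_mem (h3 : S_G0) {n : ℕ} (hn0 : n ≠ 0) : hn n ∈ HI := by
  refine ⟨?_, 1, fun z hz => hn_le h3 hn0 hz⟩
  intro z hz
  have hz1 : (1 : ℂ) - z ≠ 0 := by
    intro h
    have : z = 1 := (sub_eq_zero.1 h).symm
    rw [this, mem_ball_zero_iff] at hz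
    simp at hz
  unfold hn
  refine (DifferentiableAt.cexp ?_).differentiableWithinAt
  exact ((differentiableAt_id.const_add 1).div (differentiableAt_id.const_sub 1) hz1).const_mul _

theorem pow_mem {f : ℂ → ℂ} (hf : f ∈ HI) (k : ℕ) : f ^ k ∈ HI := by
  induction k with
  | zero => rw [pow_zero]; exact Pool.Agent.Helper503.Gp.char_le_one
  | succ k ih => rw [pow_succ]; exact Pool.Agent.Helper503.Gp.char_le_mul ih hf

theorem char_pow {φ : (ℂ → ℂ) → ℂ} (hφ : IsChar φ) {f : ℂ → ℂ} (hf : f ∈ HI) (k : ℕ) :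
    φ (f ^ k) = φ f ^ k := by
  induction k with
  | zero => rw [pow_zero, pow_zero]; exact hφ.1
  | succ k ih => rw [pow_succ, pow_succ, (hφ.2.1 _ (pow_mem hf k) _ hf).2.1, ih]

theorem main (h1 : S_ULCH) (h2 : S_SP) (h3 : S_G0) (h4 : S_SEP) (h5 : S_INT) : S_PART := by
  intro U ζ₀ hζ₀ ψ hψ
  have hx := lam_char h1 U hζ₀
  constructor
  · intro hG
    -- the value at `g0`
    have hxg := lam_g0 h1 h3 U hζ₀
    have hxn : ‖lam U ζ₀ g0‖ = Real.exp (-(2 * Real.pi * ζ₀.im)) := by rw [hxg, norm_exp2]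
    have hpi := Real.pi_pos
    have hq1 : ‖lam U ζ₀ g0‖ < 1 := by
      rw [hxn, Real.exp_lt_one_iff]
      have : 0 < 2 * Real.pi * ζ₀.im := by positivity
      linarith
    have hq0 : 0 < ‖lam U ζ₀ g0‖ := by rw [hxn]; exact Real.exp_pos _
    have hne : ψ g0 ≠ 0 := by
      intro h0
      obtain ⟨r, hr0, hr1, hr⟩ := gl_rho hψ hx (tv_gl_symm hG)
      have key : ∀ n : ℕ, n ≠ 0 → ‖lam U ζ₀ g0‖ ≤ r ^ n := by
        intro n hn0
        have hfe : hn n ^ n = g0 := by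
          funext z
          exact hn_pow hn0 z
        have e1 : ψ (hn n) = 0 := by
          have := char_pow hψ (hn_mem h3 hn0) n
          rw [hfe, h0] at this
          exact (pow_eq_zero_iff hn0).1 this.symm
        have e2 := hr (hn n) (hn_mem h3 hn0) (fun z hz => hn_le h3 hn0 hz) e1
        have e3 := char_pow hx (hn_mem h3 hn0) n
        rw [hfe] at e3
        rw [e3, norm_pow]
        exact pow_le_pow_left₀ (norm_nonneg _) e2 n
      have hlim := tendsto_pow_atTop_nhds_zero_of_lt_one hr0 hr1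
      obtain ⟨n, hn1, hn2⟩ := ((hlim.eventually (gt_mem_nhds hq0)).and
        (eventually_ge_atTop 1)).exists
      have := key n (by omega)
      linarith
    have hlt : ‖ψ g0‖ < 1 := by
      have hle : ‖ψ g0‖ ≤ 1 := char_le hψ h3.1 h3.2.1
      rcases hle.lt_or_eq with h | h
      · exact h
      · exfalso
        obtain ⟨r, hr0, hr1, hr⟩ := gl_rho hx hψ hG
        have h6 := char_sp hx hψ hr0 hr1 hr h3.1 h3.2.1
        rw [h, mul_one] at h6
        nlinarith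
    have hpc : (Real.pi : ℂ) ≠ 0 := by exact_mod_cast hpi.ne'
    have hex : Complex.exp (2 * Real.pi * I * (Complex.log (ψ g0) / (2 * Real.pi * I))) = ψ g0 := by
      have : 2 * (Real.pi : ℂ) * I * (Complex.log (ψ g0) / (2 * Real.pi * I)) =
          Complex.log (ψ g0) := by
        have hI := Complex.I_ne_zero
        field_simp
      rw [this, Complex.exp_log hne]
    set ζ : ℂ := Complex.log (ψ g0) / (2 * Real.pi * I) with hζd
    have hζ : 0 < ζ.im := by
      have h6 := norm_exp2 ζ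
      rw [hex] at h6
      rw [h6, Real.exp_lt_one_iff] at hlt
      have : 0 < 2 * Real.pi * ζ.im := by linarith
      exact (mul_pos_iff_of_pos_left (by positivity)).1 this
    obtain ⟨V, hV⟩ := h5 ψ hψ ζ hζ hex.symm
    by_cases hk : ∃ k : ℤ, V = sh U k
    · obtain ⟨k, rfl⟩ := hk
      refine ⟨ζ + k, by simpa using hζ, ?_⟩
      rw [hV, lam_sh h1 U k hζ]
    · exfalso
      push Not at hk
      rw [hV] at hG
      exact h4 U V ζ₀ ζ hζ₀ hζ hk hG
  · rintro ⟨ζ, hζ, rfl⟩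
    have hP := PH_pos hζ₀ hζ
    have hP1 := PH_le_one hζ₀ hζ
    refine tv_gl_of_rho hx hψ (r := Real.sqrt (1 - PH ζ₀ ζ)) (Real.sqrt_nonneg _) ?_ ?_
    · rw [Real.sqrt_lt' one_pos]
      linarith
    · intro g hg hg1 hg0
      have l1 := (lam_lim h1 U hζ g).norm
      have l2 := (lam_lim h1 U hζ₀ g).norm
      rw [hg0, norm_zero] at l2
      have l3 := l2.add_const (Real.sqrt (1 - PH ζ₀ ζ))
      rw [zero_add] at l3
      refine le_of_tendsto_of_tendsto' l1 l3 fun a => ?_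
      rw [pt_eq hg, pt_eq hg]
      have := h2 g hg hg1 ((a : ℂ) + ζ₀) ((a : ℂ) + ζ) (by rw [im_add]; exact hζ₀)
        (by rw [im_add]; exact hζ)
      rw [PH_inv] at this
      exact this

end Pool.Agent.W366.GL.PART
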